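import Pool.Agent.Helper34.BAC.Main

set_option autoImplicit false

namespace Pool.Agent.Results.MP_bacb90_nt.ClassNumberThree

open NumberField Pool.Agent.Helper34.BAC

/-- Let `x ^ 3 * y ^ 2 = z ^ 3 + 6` in integers and let `K` be a quadratic number field with an
element `s`, `s ^ 2 = 6 * x`. Then `3` divides the class number of `K`, or `x` is positive, the
ring of integers of `K` has a unit not congruent to a rational integer modulo `3` and, if
`x ≡ 1 mod 3`, a unit congruent to `4 + x * s` modulo `9`. -/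
theorem result (x y z : ℤ) (h : x ^ 3 * y ^ 2 = z ^ 3 + 6) (K : Type) [Field K] [NumberField K]
    (hK : Module.finrank ℚ K = 2) (s : K) (hs : s ^ 2 = 6 * x) :
    3 ∣ NumberField.classNumber K ∨
      (0 < x ∧ (∃ η : (𝓞 K)ˣ, ∀ m : ℤ, ¬ (3 : 𝓞 K) ∣ (η : 𝓞 K) - m) ∧
        (x % 3 = 1 → ∃ (η : (𝓞 K)ˣ) (k : 𝓞 K), ((η : 𝓞 K) : K) = 4 + x * s + 9 * (k : K))) := by
  by_cases hcl : 3 ∣ NumberField.classNumber K
  · exact Or.inl hcl
  · refine Or.inr ⟨?_, main hK h hs hcl, main9 hK h hs hcl⟩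
    by_contra hx
    have h3 := (facts h).2.2.2.1
    rcases lt_or_eq_of_le (not_lt.1 hx) with h0 | h0
    · exact hcl (main_neg hK h hs h0)
    · exact h3 (by rw [h0]; exact dvd_zero _)

end Pool.Agent.Results.MP_bacb90_nt.ClassNumberThree
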